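import Pool.Agent.KS6_55.RC.Main

/-!
# Regular compact metric spaces and null sequences of disjoint connected sets

The equivalence of the problem holds for all compact metric spaces `X`, connected or not, and it has a
description by the components of `X`. The new part is that a compact metric space is regular if its
components are regular and form a null family: an open subset of a component `C` with finite boundary
is extended to an open subset of `X` with the same boundary, with the help of clopen sets which
converge to `C`. For continua the equivalence is a theorem of the library.
-/

set_option autoImplicit false

namespace Pool.Agent.Results.MP_77b145_gt.AllCompactSpaces

open Pool.Agent.KS6_55.RC

/-- For every compact metric space `X` (connected or not) the following are equivalent: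
(1) `X` is regular: every point has arbitrarily small open neighbourhoods with finite boundary;
(2) the diameters of the members of every sequence of pairwise disjoint connected sets tend to `0`;
(3) every component of `X` satisfies (1), and for every `ε > 0` only finitely many components have
diameter at least `ε`;
(4) every component of `X` satisfies (2), and for every `ε > 0` only finitely many components have
diameter at least `ε`.
In particular (1) and (2) are equivalent for every continuum. -/
theorem result (X : Type) [MetricSpace X] [CompactSpace X] :
    [Regular X, NullDisjoint X,
      (∀ x : X, Regular (connectedComponent x)) ∧ NullComponents X,
      (∀ x : X, NullDisjoint (connectedComponent x)) ∧ NullComponents X].TFAE :=
  tfae

end Pool.Agent.Results.MP_77b145_gt.AllCompactSpaces
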